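import Mathlib

/-! Part (c) of the task Sweep (project LS, MP_e25190_gt): the bound of the variation. -/

set_option autoImplicit false

namespace Pool.Agent.H784R3.LN.Var

/-- clip to the unit interval -/
noncomputable def cl (x : ℝ) : ℝ := max 0 (min 1 x)

theorem cl_mono : Monotone cl := fun _ _ h => max_le_max le_rfl (min_le_min le_rfl h)

theorem cl_nonneg (x : ℝ) : 0 ≤ cl x := le_max_left _ _

theorem cl_le (x : ℝ) : cl x ≤ 1 := max_le zero_le_one (min_le_left _ _)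

theorem cl_id {x : ℝ} (h0 : 0 ≤ x) (h1 : x ≤ 1) : cl x = x := by
  unfold cl
  rw [min_eq_right h1, max_eq_right h0]

section
variable {S : Type} [MetricSpace S]

theorem evar_le {k : ℝ → S} {φ : ℝ → ℝ} {C M : ℝ} (hC : 0 ≤ C) (h0 : ∀ x, 0 ≤ φ x)
    (hM : ∀ x, φ x ≤ M) (hd : ∀ a b, a ≤ b → dist (k a) (k b) ≤ C * (φ b - φ a)) :
    eVariationOn k Set.univ ≤ ENNReal.ofReal (C * M) := by
  unfold eVariationOn
  refine iSup_le ?_
  rintro ⟨n, u, hu, -⟩
  calc ∑ i ∈ Finset.range n, edist (k (u (i + 1))) (k (u i))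
      ≤ ∑ i ∈ Finset.range n, ENNReal.ofReal (C * (φ (u (i + 1)) - φ (u i))) := by
        refine Finset.sum_le_sum fun i _ => ?_
        rw [edist_dist, dist_comm]
        exact ENNReal.ofReal_le_ofReal (hd _ _ (hu (Nat.le_succ i)))
    _ = ENNReal.ofReal (∑ i ∈ Finset.range n, C * (φ (u (i + 1)) - φ (u i))) := by
        rw [ENNReal.ofReal_sum_of_nonneg]
        intro i _
        exact dist_nonneg.trans (hd _ _ (hu (Nat.le_succ i)))
    _ ≤ ENNReal.ofReal (C * M) := by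
        refine ENNReal.ofReal_le_ofReal ?_
        rw [← Finset.mul_sum, Finset.sum_range_sub (fun i => φ (u i))]
        exact mul_le_mul_of_nonneg_left (by linarith [h0 (u 0), hM (u n)]) hC

theorem chain {k : ℝ → S} {C η : ℝ} (hC : 0 ≤ C)
    (hk : ∀ x y, dist (k x) (k y) ≤ C * |x - y|) (p : S)
    (h0 : ∀ L, L ≤ η → k L = k η) (T : Finset ℤ)
    (hp : ∀ j : ℤ, η ≤ j → j ∉ T → ∀ L : ℝ, (j : ℝ) ≤ L → L ≤ j + 1 → k L = p) :
    eVariationOn k Set.univ ≤ ENNReal.ofReal (C * (1 + T.card)) := by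
  set φ : ℝ → ℝ := fun x => cl (x - η) + ∑ j ∈ T, cl (x - j) with hφ
  have mono : Monotone φ := fun a b h => add_le_add (cl_mono (by linarith))
    (Finset.sum_le_sum fun j _ => cl_mono (by linarith))
  have tr : ∀ a b c, dist (k a) (k b) ≤ C * (φ b - φ a) → dist (k b) (k c) ≤ C * (φ c - φ b) →
      dist (k a) (k c) ≤ C * (φ c - φ a) := by
    intro a b c h1 h2
    calc dist (k a) (k c) ≤ dist (k a) (k b) + dist (k b) (k c) := dist_triangle _ _ _
      _ ≤ C * (φ b - φ a) + C * (φ c - φ b) := add_le_add h1 h2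
      _ = _ := by ring
  have const : ∀ a b, a ≤ b → k a = k b → dist (k a) (k b) ≤ C * (φ b - φ a) := by
    intro a b h e
    rw [e, dist_self]
    exact mul_nonneg hC (sub_nonneg.mpr (mono h))
  have lip : ∀ a b, a ≤ b → b - a ≤ φ b - φ a → dist (k a) (k b) ≤ C * (φ b - φ a) := by
    intro a b h e
    refine (hk a b).trans (mul_le_mul_of_nonneg_left ?_ hC)
    rw [abs_sub_comm, abs_of_nonneg (by linarith)]
    exact e
  have first : ∀ a b, η ≤ a → a ≤ b → b ≤ η + 1 → dist (k a) (k b) ≤ C * (φ b - φ a) := by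
    intro a b h1 h2 h3
    refine lip a b h2 ?_
    have e1 : cl (b - η) = b - η := cl_id (by linarith) (by linarith)
    have e2 : cl (a - η) = a - η := cl_id (by linarith) (by linarith)
    have e3 : ∑ j ∈ T, cl (a - j) ≤ ∑ j ∈ T, cl (b - j) :=
      Finset.sum_le_sum fun j _ => cl_mono (by linarith)
    simp only [hφ]
    rw [e1, e2]
    linarith
  have loc : ∀ (j : ℤ) (a b : ℝ), η ≤ j → (j : ℝ) ≤ a → a ≤ b → b ≤ j + 1 →
      dist (k a) (k b) ≤ C * (φ b - φ a) := by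
    intro j a b hj h1 h2 h3
    by_cases hT : j ∈ T
    · refine lip a b h2 ?_
      have e0 : cl (a - η) ≤ cl (b - η) := cl_mono (by linarith)
      have e3 : b - a ≤ ∑ j ∈ T, (cl (b - j) - cl (a - j)) := by
        have e4 : b - a = cl (b - j) - cl (a - j) := by
          rw [cl_id (by linarith) (by linarith), cl_id (by linarith) (by linarith)]
          ring
        rw [e4]
        exact Finset.single_le_sum (f := fun j : ℤ => cl (b - j) - cl (a - j))
          (fun i _ => sub_nonneg.mpr (cl_mono (by linarith))) hT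
      rw [Finset.sum_sub_distrib] at e3
      simp only [hφ]
      linarith
    · refine const a b h2 ?_
      rw [hp j hj hT a h1 (by linarith), hp j hj hT b (by linarith) h3]
  have hc1 : η ≤ (⌈η⌉ : ℤ) := Int.le_ceil η
  have hc2 : (⌈η⌉ : ℝ) < η + 1 := Int.ceil_lt_add_one η
  have all : ∀ (n : ℕ) (a b : ℝ), a ≤ b → b ≤ (⌈η⌉ : ℝ) + n →
      dist (k a) (k b) ≤ C * (φ b - φ a) := by
    intro n
    induction n with
    | zero =>
      intro a b hab hb
      simp only [Nat.cast_zero, add_zero] at hb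
      by_cases h1 : b ≤ η
      · exact const a b hab ((h0 a (hab.trans h1)).trans (h0 b h1).symm)
      · push Not at h1
        by_cases h2 : a ≤ η
        · exact tr a η b (const a η h2 (h0 a h2)) (first η b le_rfl h1.le (by linarith))
        · push Not at h2
          exact first a b h2.le hab (by linarith)
    | succ n ih =>
      intro a b hab hb
      by_cases h1 : b ≤ (⌈η⌉ : ℝ) + n
      · exact ih a b hab h1
      · push Not at h1
        have key : ∀ a', (⌈η⌉ : ℝ) + n ≤ a' → a' ≤ b →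
            dist (k a') (k b) ≤ C * (φ b - φ a') := by
          intro a' h2 h3
          refine loc (⌈η⌉ + n) a' b ?_ ?_ h3 ?_
          · push_cast
            have : (0 : ℝ) ≤ n := Nat.cast_nonneg n
            linarith
          · push_cast
            exact h2
          · push_cast at hb ⊢
            linarith
        by_cases h2 : (⌈η⌉ : ℝ) + n ≤ a
        · exact key a h2 hab
        · push Not at h2
          exact tr a ((⌈η⌉ : ℝ) + n) b (ih a _ h2.le le_rfl) (key _ le_rfl h1.le)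
  refine evar_le hC (φ := φ) (fun x => add_nonneg (cl_nonneg _)
    (Finset.sum_nonneg fun j _ => cl_nonneg _)) (fun x => ?_) (fun a b hab => ?_)
  · refine add_le_add (cl_le _) ?_
    calc ∑ j ∈ T, cl (x - j) ≤ ∑ j ∈ T, (1 : ℝ) := Finset.sum_le_sum fun j _ => cl_le _
      _ = T.card := by simp
  · obtain ⟨n, hn⟩ := exists_nat_ge (b - (⌈η⌉ : ℝ))
    exact all n a b hab (by linarith)

end

/-- `t` is near to a wall of level `l` -/
def Near (η : ℝ) (l : ℤ) (t : ℝ) : Prop :=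
  ∃ n : ℤ, max 1 ((2 : ℝ) ^ ((l : ℝ) - 1 - η)) * |t - 2 ^ l * (n + 1 / 6)| < 2 ^ l / 100

theorem near_bd {η t w : ℝ} {l : ℤ}
    (h : max 1 ((2 : ℝ) ^ ((l : ℝ) - 1 - η)) * |t - w| < 2 ^ l / 100) :
    |t - w| < (2 : ℝ) ^ η / 50 := by
  have h1 : (2 : ℝ) ^ ((l : ℝ) - 1 - η) * |t - w| < 2 ^ l / 100 :=
    (mul_le_mul_of_nonneg_right (le_max_right _ _) (abs_nonneg _)).trans_lt h
  have h2 : (2 : ℝ) ^ ((l : ℝ) - 1 - η) = 2 ^ l / 2 / (2 : ℝ) ^ η := by
    rw [Real.rpow_sub two_pos, Real.rpow_sub two_pos, Real.rpow_intCast, Real.rpow_one]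
  have h3 : (0 : ℝ) < (2 : ℝ) ^ η := by positivity
  have h4 : (0 : ℝ) < 2 ^ l := by positivity
  rw [h2] at h1
  have h5 : (2 : ℝ) ^ l / 2 / (2 : ℝ) ^ η * |t - w| = 2 ^ l * (|t - w| / (2 * (2 : ℝ) ^ η)) := by
    field_simp
  rw [h5] at h1
  have h6 : |t - w| / (2 * (2 : ℝ) ^ η) < 1 / 100 := by
    by_contra hc
    push Not at hc
    have := mul_le_mul_of_nonneg_left hc h4.le
    linarith
  rw [div_lt_iff₀ (by positivity)] at h6
  linarith

theorem near_lt {η t : ℝ} {l l' : ℤ} (hl : η ≤ l) (hll : l < l') (h : Near η l t)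
    (h' : Near η l' t) : False := by
  obtain ⟨n, hn⟩ := h
  obtain ⟨n', hn'⟩ := h'
  have b1 := near_bd hn
  have b2 := near_bd hn'
  obtain ⟨r, hr⟩ := Int.eq_ofNat_of_zero_le (show 0 ≤ l' - l by omega)
  have hr0 : r ≠ 0 := by omega
  have e1 : (2 : ℝ) ^ l' = 2 ^ l * 2 ^ r := by
    have : l' = l + (r : ℤ) := by omega
    rw [this, zpow_add₀ two_ne_zero, zpow_natCast]
  have hη : (2 : ℝ) ^ η ≤ 2 ^ l := by
    rw [← Real.rpow_intCast]
    exact Real.rpow_le_rpow_of_exponent_le one_le_two hl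
  have h4 : (0 : ℝ) < 2 ^ l := by positivity
  have hodd : (6 * n + 1 - 2 ^ r * (6 * n' + 1) : ℤ) ≠ 0 := by
    intro h0
    have h1 : (2 : ℤ) ∣ 2 ^ r := dvd_pow_self 2 hr0
    obtain ⟨q, hq⟩ := h1
    rw [hq] at h0
    have h2 : 2 * (q * (6 * n' + 1)) = 6 * n + 1 := by linarith
    omega
  have h1 : (1 : ℝ) ≤ |((6 * n + 1 - 2 ^ r * (6 * n' + 1) : ℤ) : ℝ)| := by
    exact_mod_cast Int.one_le_abs hodd
  have h2 : |(2 : ℝ) ^ l * (n + 1 / 6) - 2 ^ l' * (n' + 1 / 6)| =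
      2 ^ l / 6 * |((6 * n + 1 - 2 ^ r * (6 * n' + 1) : ℤ) : ℝ)| := by
    rw [e1, ← abs_of_pos (show (0 : ℝ) < 2 ^ l / 6 by positivity), ← abs_mul]
    congr 1
    push_cast
    ring
  have h3 : |(2 : ℝ) ^ l * (n + 1 / 6) - 2 ^ l' * (n' + 1 / 6)| ≤
      |t - 2 ^ l * (n + 1 / 6)| + |t - 2 ^ l' * (n' + 1 / 6)| := by
    have := abs_sub_le ((2 : ℝ) ^ l * (n + 1 / 6)) t (2 ^ l' * (n' + 1 / 6))
    rw [abs_sub_comm ((2 : ℝ) ^ l * (n + 1 / 6)) t] at this
    exact this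
  have h5 : (2 : ℝ) ^ l / 6 * 1 ≤ 2 ^ l / 6 * |((6 * n + 1 - 2 ^ r * (6 * n' + 1) : ℤ) : ℝ)| :=
    mul_le_mul_of_nonneg_left h1 (by positivity)
  rw [h2] at h3
  linarith

theorem near_unique {η t : ℝ} {l l' : ℤ} (hl : η ≤ l) (hl' : η ≤ l') (h : Near η l t)
    (h' : Near η l' t) : l = l' := by
  rcases lt_trichotomy l l' with h1 | h1 | h1
  · exact (near_lt hl h1 h h').elim
  · exact h1
  · exact (near_lt hl' h1 h' h).elim

open Classical in
/-- The variation bound. -/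
theorem var {S : Type} [MetricSpace S] {m : ℕ} {k : ℝ → S} {C η : ℝ} (hC : 0 ≤ C)
    (hk : ∀ x y, dist (k x) (k y) ≤ C * |x - y|) (p : S) (x : Fin m → ℝ)
    (h0 : ∀ L, L ≤ η → k L = k η)
    (hp : ∀ j : ℤ, η ≤ j → (∀ (i : Fin m) (l : ℤ), (l = j ∨ l = j + 1) → ∀ n : ℤ,
      (2 : ℝ) ^ l / 100 ≤ max 1 ((2 : ℝ) ^ ((l : ℝ) - 1 - η)) * |x i - 2 ^ l * (n + 1 / 6)|) →
      ∀ L : ℝ, (j : ℝ) ≤ L → L ≤ j + 1 → k L = p) :
    eVariationOn k Set.univ ≤ ENNReal.ofReal (C * (1 + 2 * m)) := by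
  set w : Fin m → ℤ := fun i => if h : ∃ l : ℤ, η ≤ l ∧ Near η l (x i) then h.choose else 0
    with hw
  have hw1 : ∀ (i : Fin m) (l : ℤ), η ≤ l → Near η l (x i) → w i = l := by
    intro i l h1 h2
    have hex : ∃ l : ℤ, η ≤ l ∧ Near η l (x i) := ⟨l, h1, h2⟩
    simp only [hw]
    rw [dif_pos hex]
    exact near_unique hex.choose_spec.1 h1 hex.choose_spec.2 h2
  set T : Finset ℤ := Finset.univ.image w ∪ Finset.univ.image (fun i => w i - 1) with hT
  have hcard : T.card ≤ 2 * m := by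
    refine (Finset.card_union_le _ _).trans ?_
    have h1 : (Finset.univ.image w).card ≤ m := by
      refine Finset.card_image_le.trans ?_
      simp
    have h2 : (Finset.univ.image (fun i => w i - 1)).card ≤ m := by
      refine Finset.card_image_le.trans ?_
      simp
    omega
  refine (chain hC hk p h0 T fun j hj hjT => hp j hj ?_).trans ?_
  · intro i l hl n
    by_contra hc
    push Not at hc
    have hl1 : η ≤ (l : ℝ) := by
      rcases hl with rfl | rfl
      · exact hj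
      · push_cast
        linarith
    have e := hw1 i l hl1 ⟨n, hc⟩
    apply hjT
    rw [hT, Finset.mem_union, Finset.mem_image, Finset.mem_image]
    rcases hl with h | h
    · exact Or.inl ⟨i, Finset.mem_univ _, by omega⟩
    · exact Or.inr ⟨i, Finset.mem_univ _, by omega⟩
  · refine ENNReal.ofReal_le_ofReal (mul_le_mul_of_nonneg_left ?_ hC)
    have : (T.card : ℝ) ≤ 2 * m := by exact_mod_cast hcard
    linarith

/-- Far away from the walls for large levels. -/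
theorem large (X : ℝ) : ∃ J : ℤ, ∀ l : ℤ, J ≤ l → ∀ (t η : ℝ), |t| ≤ X → ∀ n : ℤ,
    (2 : ℝ) ^ l / 100 ≤ max 1 ((2 : ℝ) ^ ((l : ℝ) - 1 - η)) * |t - 2 ^ l * (n + 1 / 6)| := by
  obtain ⟨N, hN⟩ := pow_unbounded_of_one_lt (10 * X) (one_lt_two (α := ℝ))
  refine ⟨N, fun l hl t η ht n => ?_⟩
  have h1 : (2 : ℝ) ^ N ≤ 2 ^ l := by
    rw [← zpow_natCast]
    exact zpow_le_zpow_right₀ one_le_two hl
  have h4 : (0 : ℝ) < 2 ^ l := by positivity
  have h2 : (1 : ℝ) / 6 ≤ |(n : ℝ) + 1 / 6| := by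
    rcases le_or_gt 0 n with h | h
    · have : (0 : ℝ) ≤ n := by exact_mod_cast h
      rw [abs_of_nonneg (by linarith)]
      linarith
    · have : (n : ℝ) ≤ -1 := by exact_mod_cast (by omega : n ≤ -1)
      rw [abs_of_nonpos (by linarith)]
      linarith
  have h3 : (2 : ℝ) ^ l / 6 ≤ |2 ^ l * ((n : ℝ) + 1 / 6)| := by
    rw [abs_mul, abs_of_pos h4]
    have := mul_le_mul_of_nonneg_left h2 h4.le
    linarith
  have h5 : |2 ^ l * ((n : ℝ) + 1 / 6)| ≤ |t - 2 ^ l * (n + 1 / 6)| + |t| := by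
    have := abs_sub_abs_le_abs_sub (2 ^ l * ((n : ℝ) + 1 / 6)) t
    rw [abs_sub_comm] at this
    linarith
  have h6 : |t - 2 ^ l * (n + 1 / 6)| ≤
      max 1 ((2 : ℝ) ^ ((l : ℝ) - 1 - η)) * |t - 2 ^ l * (n + 1 / 6)| :=
    le_mul_of_one_le_left (abs_nonneg _) (le_max_left _ _)
  linarith

end Pool.Agent.H784R3.LN.Var
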